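import Pool.Agent.P.MP_4c4e6e_co.Main

/-! The minimum area of a convex universal case of diameter one for carpenter's rulers. -/

namespace Pool.Agent.Results.MP_4c4e6e_co.R2Optimal

open Pool.Agent.P.MP_4c4e6e_co

theorem result :
    IsLeast {a : ENNReal | ∃ S : Set ℂ, IsCase S ∧ Convex ℝ S ∧ Metric.diam S = 1 ∧ Universal S ∧
        MeasureTheory.volume S = a} (ENNReal.ofReal (Real.pi / 3 - √3 / 4)) := by
  refine ⟨upper, ?_⟩
  rintro a ⟨S, _, hc, hd, hu, rfl⟩
  exact lower S hc hd hu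

end Pool.Agent.Results.MP_4c4e6e_co.R2Optimal
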