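import Pool.Agent.P.MP_4c4e6e_co.StMain

/-! Linear stability of the smallest convex universal case for carpenter's rulers. -/

namespace Pool.Agent.Results.MP_4c4e6e_co.R2Stable

open Pool.Agent.P.MP_4c4e6e_co

theorem result :
    ∃ c : ℝ, 0 < c ∧ ∀ S : Set ℂ, Convex ℝ S → Metric.diam S = 1 → Universal S →
      ∃ g : ℂ ≃ᵢ ℂ,
        Metric.hausdorffDist S (g '' {z : ℂ | ‖z‖ ≤ 1 ∧ ‖z - 1‖ ≤ 1 ∧ 0 ≤ z.im}) ≤
          c * |(MeasureTheory.volume S).toReal - (Real.pi / 3 - √3 / 4)| := by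
  obtain ⟨c, hc, h⟩ := stable
  refine ⟨c, hc, fun S h1 h2 h3 => ?_⟩
  obtain ⟨g, hg⟩ := h S h1 h2 h3
  exact ⟨g, hg.trans (mul_le_mul_of_nonneg_left (le_abs_self _) hc.le)⟩

end Pool.Agent.Results.MP_4c4e6e_co.R2Stable
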